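import Pool.Agent.Helper50.EX.Stm

/-!
# EX: AL1 (elements on which the group acts by the one-parameter group)
-/

set_option autoImplicit false
set_option linter.unusedSectionVars false

namespace Pool.Agent.Helper90.EX

open Polynomial Finset Pool.Agent.Helper50.EX

section fac

variable {k A : Type} [Field k] [CommRing A] [Algebra k A]

/-- the falling factorial -/
noncomputable def fal (x0 : A) (m : ℕ) : A[X] :=
  ∏ i ∈ range m, (X - Polynomial.C (algebraMap k A (i : k) * x0))

theorem fal_eval (x0 : A) (m : ℕ) (a : k) :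
    (fal (k := k) x0 m).eval (a • x0) = algebraMap k A (∏ i ∈ range m, (a - (i : k))) * x0 ^ m := by
  unfold fal
  rw [eval_prod, map_prod]
  have : ∀ i ∈ range m, (X - Polynomial.C (algebraMap k A (i : k) * x0)).eval (a • x0) =
      algebraMap k A (a - (i : k)) * x0 := by
    intro i _
    rw [eval_sub, eval_X, eval_C, Algebra.smul_def, map_sub, sub_mul]
  rw [Finset.prod_congr rfl this, Finset.prod_mul_distrib, Finset.prod_const, card_range]

theorem fal_one (x0 : A) : (fal (k := k) x0 1).coeff 1 = 1 := by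
  unfold fal
  rw [Finset.prod_range_one, Nat.cast_zero, map_zero, zero_mul, C_0, sub_zero, coeff_X_one]

theorem fal_coeff (x0 : A) (Q : Ideal A) (hx : x0 ∈ Q) (m : ℕ) (hm : m ≠ 1) :
    (fal (k := k) x0 m).coeff 1 ∈ Q := by
  unfold fal
  rcases m with _ | m
  · rw [Finset.prod_range_zero, coeff_one]
    simp
  · rw [Finset.prod_range_succ', Nat.cast_zero, map_zero, zero_mul, C_0, sub_zero,
      coeff_mul_X, coeff_zero_eq_eval_zero, eval_prod]
    have hm0 : 0 < m := by omega
    obtain ⟨m', rfl⟩ : ∃ m', m = m' + 1 := ⟨m - 1, by omega⟩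
    rw [Finset.prod_range_succ]
    refine Q.mul_mem_left _ ?_
    rw [eval_sub, eval_X, eval_C, zero_sub]
    exact Q.neg_mem (Q.mul_mem_left _ hx)

end fac

/-- **AL1.** -/
theorem al1 : S_AL1 := by
  classical
  intro p hp k M _ _ _ _ _ G _ C Q σ I τ x0 h al y w hy hal hw
  have hQ := h.prime
  have hmul : ∀ {a b : C}, a ∉ Q → b ∉ Q → a * b ∉ Q := fun ha hb h =>
    (hQ.mem_or_mem h).elim ha hb
  have key : ∀ m : ℕ, ∃ t c : C, t ∉ Q ∧ (x0 : M) ^ m * (c : M) = (t : M) * (df σ τ)^[m] y := by
    intro m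
    induction m with
    | zero =>
      obtain ⟨t, c, ht, hc⟩ := hy
      exact ⟨t, c, ht, by rw [pow_zero, one_mul, hc]; rfl⟩
    | succ m ih =>
      obtain ⟨t, c, ht, hc⟩ := ih
      obtain ⟨t1, a, ht1, ha⟩ := h.pr c
      obtain ⟨t2, b, ht2, hb⟩ := h.pr t
      obtain ⟨d, hd, hdt⟩ := h.ine τ h.tau t
      set tt : C := ⟨σ τ t, h.st τ t t.2⟩ with htt0
      have htt : tt ∉ Q := by
        intro h1
        apply ht
        have e : t = tt - d := by
          apply Subtype.ext
          rw [AddSubgroupClass.coe_sub, hdt]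
          simp [htt0]
        rw [e]
        exact Q.sub_mem h1 hd
      refine ⟨t1 * t2 * tt * t, t * t2 * a - t1 * b * c,
        hmul (hmul (hmul ht1 ht2) htt) ht, ?_⟩
      rw [Function.iterate_succ_apply']
      set z := (df σ τ)^[m] y with hz
      have hc' : (x0 : M) ^ m * σ τ c = σ τ t * σ τ z := by
        have := congrArg (σ τ) hc
        rwa [map_mul, map_mul, map_pow, h.fX] at this
      have e1 : ((t1 * t2 * tt * t : C) : M) = (t1 : M) * t2 * σ τ t * t := rfl
      have e2 : ((t * t2 * a - t1 * b * c : C) : M) = (t : M) * t2 * a - t1 * b * c := rfl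
      rw [e1, e2]
      unfold df
      linear_combination (-((x0 : M) ^ m * t * t2)) * ha + ((x0 : M) ^ m * t1 * c) * hb +
        ((t1 : M) * t2 * t) * hc' - ((t1 : M) * t2 * σ τ t) * hc
  choose T c hT hc using key
  set t : C := ∏ i ∈ range p, T i with ht
  have htQ : t ∉ Q := by
    intro h1
    obtain ⟨i, -, hi⟩ := (Ideal.IsPrime.prod_mem_iff (hp := hQ)).1 h1
    exact hT i hi
  set c' : ℕ → C := fun m => (∏ i ∈ (range p).erase m, T i) * c m with hc'
  have hcm : ∀ m ∈ range p, (x0 : M) ^ m * (c' m : M) = (t : M) * (df σ τ)^[m] y := by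
    intro m hm
    have e1 : T m * ∏ i ∈ (range p).erase m, T i = t := Finset.mul_prod_erase _ _ hm
    have e2 : ((T m : C) : M) * ((∏ i ∈ (range p).erase m, T i : C) : M) = t := by
      rw [← e1]; rfl
    have e3 : (c' m : M) = ((∏ i ∈ (range p).erase m, T i : C) : M) * c m := rfl
    rw [e3]
    calc (x0 : M) ^ m * (((∏ i ∈ (range p).erase m, T i : C) : M) * c m)
        = ((∏ i ∈ (range p).erase m, T i : C) : M) * ((x0 : M) ^ m * c m) := by ring
      _ = ((∏ i ∈ (range p).erase m, T i : C) : M) * ((T m : M) * (df σ τ)^[m] y) := by rw [hc]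
      _ = (((T m : C) : M) * ((∏ i ∈ (range p).erase m, T i : C) : M)) * (df σ τ)^[m] y := by ring
      _ = _ := by rw [e2]
  set P : C[X] := ∑ m ∈ range p, Polynomial.C (c' m * algebraMap k C ((m.factorial : k)⁻¹)) *
    fal (k := k) x0 m with hP
  refine ⟨t, htQ, P, fun g hg => ?_, P.coeff 1 - c' 1, ?_, ?_⟩
  · rw [hal g hg, hP, eval_finsetSum, Finset.mul_sum]
    rw [← Subalgebra.coe_val, map_sum]
    refine Finset.sum_congr rfl fun m hm => ?_
    rw [eval_mul, eval_C, fal_eval, Subalgebra.coe_val, mul_smul_comm, ← hcm m hm]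
    unfold bn
    rw [Algebra.smul_def, div_eq_mul_inv, map_mul]
    have e1 : ((c' m * algebraMap k C ((m.factorial : k)⁻¹) *
        (algebraMap k C (∏ i ∈ range m, (al g - (i : k))) * x0 ^ m) : C) : M) =
        (c' m : M) * algebraMap k M ((m.factorial : k)⁻¹) *
        (algebraMap k M (∏ i ∈ range m, (al g - (i : k))) * (x0 : M) ^ m) := rfl
    rw [e1]
    ring
  · have h1 : (1 : ℕ) ∈ range p := Finset.mem_range.2 hp.out.one_lt
    rw [hP, finsetSum_coeff, ← Finset.add_sum_erase _ _ h1, coeff_C_mul, fal_one, mul_one,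
      Nat.factorial_one, Nat.cast_one, inv_one, map_one, mul_one, add_sub_cancel_left]
    refine Q.sum_mem fun m hm => ?_
    rw [coeff_C_mul]
    exact Q.mul_mem_left _ (fal_coeff x0 Q h.XQ m (Finset.ne_of_mem_erase hm))
  · have h1 : (1 : ℕ) ∈ range p := Finset.mem_range.2 hp.out.one_lt
    have h2 := hcm 1 h1
    rw [pow_one, Function.iterate_one] at h2
    have h3 : (c' 1 : M) = t * w := by
      apply mul_left_cancel₀ h.X0
      rw [h2]
      unfold df
      rw [← hw]
      ring
    rw [AddSubgroupClass.coe_sub, h3]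
    ring

end Pool.Agent.Helper90.EX
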