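import Pool.Agent.Helper50.EX.Stm

/-!
# EX: AL2 (inverses) and AL3 (sums, products, constants)
-/

set_option autoImplicit false
set_option linter.unusedSectionVars false

namespace Pool.Agent.Helper90.EX

open Polynomial Finset Pool.Agent.Helper50.EX

/-- **AL3.** -/
theorem al3 : S_AL3 := by
  intro k M _ _ _ _ G _ C Q hQ σ I x
  have h1 : (1 : C) ∉ Q := fun h => hQ.ne_top ((Ideal.eq_top_iff_one Q).2 h)
  have hmul : ∀ {t t' : C}, t ∉ Q → t' ∉ Q → t * t' ∉ Q := fun ht ht' h =>
    (hQ.mem_or_mem h).elim ht ht'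
  refine ⟨{ carrier := {y | DX C Q σ I x y}
            mul_mem' := ?_
            add_mem' := ?_
            algebraMap_mem' := ?_ }, fun y => Iff.rfl⟩
  · rintro y y' ⟨t, ht, P, hP⟩ ⟨t', ht', P', hP'⟩
    refine ⟨t * t', hmul ht ht', P * P', fun g hg => ?_⟩
    rw [eval_mul, MulMemClass.coe_mul, hP g hg, hP' g hg, MulMemClass.coe_mul, map_mul]
    ring
  · rintro y y' ⟨t, ht, P, hP⟩ ⟨t', ht', P', hP'⟩
    refine ⟨t * t', hmul ht ht', Polynomial.C t' * P + Polynomial.C t * P', fun g hg => ?_⟩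
    rw [eval_add, eval_mul, eval_mul, eval_C, eval_C, AddMemClass.coe_add, MulMemClass.coe_mul,
      MulMemClass.coe_mul, hP g hg, hP' g hg, MulMemClass.coe_mul, map_add]
    ring
  · intro a
    refine ⟨1, h1, Polynomial.C (algebraMap k C a), fun g hg => ?_⟩
    rw [eval_C, AlgHom.commutes, OneMemClass.coe_one, one_mul]
    rfl

/-- **AL2.** -/
theorem al2 : S_AL2 := by
  classical
  intro k M _ _ _ _ G _ _ C Q hQ σ I hσ x hx y z hy hyz hs
  obtain ⟨t, ht, P, hP⟩ := hy
  obtain ⟨t', s', ht', hs', hst⟩ := hs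
  have hmul : ∀ {a b : C}, a ∉ Q → b ∉ Q → a * b ∉ Q := fun ha hb h =>
    (hQ.mem_or_mem h).elim ha hb
  have hfin : Fintype I := Fintype.ofFinite I
  -- the values are congruent
  have hc0 : ∀ g ∈ I, P.eval (x g) - P.coeff 0 ∈ Q := by
    intro g hg
    have e1 : P.eval (x g) = P.divX.eval (x g) * x g + P.coeff 0 := by
      conv_lhs => rw [← divX_mul_X_add P]
      rw [eval_add, eval_mul, eval_X, eval_C]
    rw [e1, add_sub_cancel_right]
    exact Q.mul_mem_left _ (hx g hg)
  have hone : P.eval (x 1) ∉ Q := by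
    intro h
    have e1 : t' * P.eval (x 1) = t * s' := by
      apply Subtype.ext
      rw [MulMemClass.coe_mul, hP 1 I.one_mem, hσ, MulMemClass.coe_mul, hst]
      ring
    have h2 : t * s' ∈ Q := by
      rw [← e1]
      exact Q.mul_mem_left _ h
    exact hmul ht hs' h2
  have hco : P.coeff 0 ∉ Q := by
    intro h
    apply hone
    have := Q.add_mem (hc0 1 I.one_mem) h
    rwa [sub_add_cancel] at this
  have hall : ∀ g ∈ I, P.eval (x g) ∉ Q := by
    intro g hg h
    apply hco
    have := Q.sub_mem h (hc0 g hg)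
    rwa [sub_sub_cancel] at this
  set pp : C[X] := ∏ h : I, (X - Polynomial.C (P.eval (x (h : G)))) with hpp
  have hroot : ∀ g ∈ I, pp.eval (P.eval (x g)) = 0 := by
    intro g hg
    rw [hpp, eval_prod]
    refine Finset.prod_eq_zero (Finset.mem_univ (⟨g, hg⟩ : I)) ?_
    rw [eval_sub, eval_X, eval_C, sub_self]
  have hN : pp.coeff 0 ∉ Q := by
    rw [coeff_zero_eq_eval_zero, hpp, eval_prod]
    intro h
    obtain ⟨g, -, hg⟩ := (Ideal.IsPrime.prod_mem_iff (hp := hQ)).1 h
    rw [eval_sub, eval_X, eval_C, zero_sub, neg_mem_iff] at hg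
    exact hall g g.2 hg
  refine ⟨pp.coeff 0, hN, Polynomial.C t * (-(pp.divX.comp P)), fun g hg => ?_⟩
  have e1 := hroot g hg
  have e2 : pp.eval (P.eval (x g)) =
      pp.divX.eval (P.eval (x g)) * P.eval (x g) + pp.coeff 0 := by
    conv_lhs => rw [← divX_mul_X_add pp]
    rw [eval_add, eval_mul, eval_X, eval_C]
  rw [e2] at e1
  have e3 : pp.coeff 0 = -(pp.divX.eval (P.eval (x g))) * P.eval (x g) := by
    linear_combination e1
  have e4 : (σ g y) * (σ g z) = 1 := by
    rw [← map_mul, hyz, map_one]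
  have e5 : ((pp.coeff 0 : C) : M) =
      -((pp.divX.eval (P.eval (x g)) : C) : M) * ((t : M) * σ g y) := by
    rw [← hP g hg]
    have := congrArg (fun c : C => (c : M)) e3
    simpa using this
  rw [eval_mul, eval_C, eval_neg, eval_comp, e5]
  push_cast
  linear_combination (((t : M) * ((pp.divX.eval (P.eval (x g)) : C) : M))) * e4

end Pool.Agent.Helper90.EX
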